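import Pool.Agent.Lib.MP_bd0f13_lc.Rob.Poly

open Pool.Agent.Lib Pool.Agent.Lib.MP_bd0f13_lc

/-- A polynomial-time, parsimonious and gap-preserving reduction from 3-colourability to the
existence of a coalition-exchange-stable matching. -/
theorem Pool.Agent.Results.MP_bd0f13_lc.RobustReduction.result :
    ∃ f : ℕ × List (ℕ × ℕ) → List (List ℕ) × List (List ℕ), MP_634427_lc.PT f ∧
      ∀ (N : ℕ) (E : List (ℕ × ℕ)) (G : SimpleGraph (Fin N)), Codes N E G →
        ∃ I : SM (N * 4), f (N, E) = I.code ∧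
          (∀ M : Equiv.Perm (Fin (N * 4)), I.ExchangeStable M ↔ I.CoalitionExchangeStable M) ∧
          (∃ e : {M : Equiv.Perm (Fin (N * 4)) // I.CoalitionExchangeStable M} ≃
              G.Coloring (Fin 3),
            ∀ M (v : Fin N), ((e M v : Fin 3) : ℕ) =
              (M.1.symm (finProdFinEquiv (v, 0))).modNat) ∧
          (∀ c : Fin N → Fin 3, ∃ M : Equiv.Perm (Fin (N * 4)),
            I.blockingPairs M = monochromatic G c) ∧
          (∀ M : Equiv.Perm (Fin (N * 4)), ∃ (c : Fin N → Fin 3) (X : Finset (Fin N)),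
            X.card ≤ 8 * I.blockingAgents M ∧
              ∀ u v, G.Adj u v → c u = c v → u ∈ X ∨ v ∈ X) ∧
          (∃ l : Equiv.Perm (Fin (N * 4)), ∀ m r s : Fin (N * 4), 4 ≤ (r : ℕ) → r < s →
            l.symm (I.man m r) < l.symm (I.man m s)) ∧
          (∀ (v : Fin N) (j : Fin 4) (r s : Fin (N * 4)),
            4 + 3 * (G.neighborSet v).ncard ≤ (r : ℕ) → r < s →
              I.woman (finProdFinEquiv (v, j)) r < I.woman (finProdFinEquiv (v, j)) s) :=
  ⟨Rob.reduction, Rob.pt_reduction, fun _ _ _ hG => ⟨Rob.inst hG, Rob.code_inst hG,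
    Rob.exchange_iff_coalition hG, ⟨Rob.equivColoring hG, Rob.equivColoring_apply hG⟩,
    fun c => ⟨_, Rob.blockingPairs_push hG c⟩, Rob.robust hG, ⟨_, Rob.man_master hG⟩,
    Rob.woman_master hG⟩⟩
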